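import Pool.Agent.N718.DC.Stm

set_option autoImplicit false

/-!
# Project DC (helper718), part SINGLE (helper73): prime values of one linear form in two variables
-/

namespace Pool.Agent.N73.DC

open Finset Pool.Agent.N718.DC

theorem pos_iff (c k : ℤ) {m : ℕ} (hm : 1 ≤ m) : pos (c + m * k) = if (-c) / m + 1 ≤ k then 1 else 0 := by
  have hm' : (0 : ℤ) < m := by exact_mod_cast hm
  unfold pos
  have h1 : 0 < c + m * k ↔ (-c) / m + 1 ≤ k := by
    rw [Int.add_one_le_iff, Int.ediv_lt_iff_lt_mul hm', mul_comm k]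
    constructor <;> intro h <;> linarith
  simp only [h1]

theorem filter_Icc (u v w : ℤ) : (Icc u v).filter (fun k => w ≤ k) = Icc (max u w) v := by
  ext k
  rw [mem_filter, mem_Icc, mem_Icc, max_le_iff]
  tauto

open Classical in
/-- one row -/
theorem row {m X : ℕ} {E : ℝ} (hm : 1 ≤ m)
    (h : ∀ c k₁ k₂ : ℤ, (∀ k ∈ Icc k₁ k₂, |c + m * k| ≤ X) →
      |∑ k ∈ Icc k₁ k₂, lam (c + m * k) -
        rt m * (if IsCoprime c (m : ℤ) then ∑ k ∈ Icc k₁ k₂, pos (c + m * k) else 0)| ≤ E)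
    (c c' u v : ℤ) (hb : ∀ k ∈ Icc u v, |c + m * k| ≤ X) :
    |∑ k ∈ Icc u v, lam (c + m * k) * pos (c' + m * k) -
      rt m * ∑ k ∈ Icc u v, (if IsCoprime (c + m * k) (m : ℤ) then
        pos (c + m * k) * pos (c' + m * k) else 0)| ≤ E := by
  obtain ⟨w, hw⟩ : ∃ w : ℤ, w = (-c') / m + 1 := ⟨_, rfl⟩
  have hp : ∀ k : ℤ, pos (c' + m * k) = if w ≤ k then 1 else 0 := fun k => by
    rw [pos_iff c' k hm, hw]
  have e1 : ∑ k ∈ Icc u v, lam (c + m * k) * pos (c' + m * k) =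
      ∑ k ∈ Icc (max u w) v, lam (c + m * k) := by
    rw [← filter_Icc, Finset.sum_filter]
    refine Finset.sum_congr rfl fun k _ => ?_
    rw [hp]
    split_ifs
    · rw [mul_one]
    · rw [mul_zero]
  have hco : ∀ k : ℤ, IsCoprime (c + m * k) (m : ℤ) ↔ IsCoprime c (m : ℤ) := fun k =>
    IsCoprime.add_mul_left_left_iff
  have e2 : ∑ k ∈ Icc u v, (if IsCoprime (c + m * k) (m : ℤ) then
        pos (c + m * k) * pos (c' + m * k) else 0) =
      if IsCoprime c (m : ℤ) then ∑ k ∈ Icc (max u w) v, pos (c + m * k) else 0 := by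
    by_cases hc : IsCoprime c (m : ℤ)
    · rw [if_pos hc, ← filter_Icc, Finset.sum_filter]
      refine Finset.sum_congr rfl fun k _ => ?_
      rw [if_pos ((hco k).2 hc), hp]
      split_ifs
      · rw [mul_one]
      · rw [mul_zero]
    · rw [if_neg hc]
      exact Finset.sum_eq_zero fun k _ => if_neg fun h1 => hc ((hco k).1 h1)
  rw [e1, e2]
  refine h c _ _ fun k hk => hb k ?_
  rw [mem_Icc] at hk ⊢
  exact ⟨(le_max_left _ _).trans hk.1, hk.2⟩

theorem sum_neg_Icc (u v : ℤ) (F : ℤ → ℝ) : ∑ k ∈ Icc u v, F (-k) = ∑ k ∈ Icc (-v) (-u), F k := by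
  refine Finset.sum_nbij' (fun k => -k) (fun k => -k) ?_ ?_ ?_ ?_ ?_
  · intro k hk
    rw [mem_Icc] at hk ⊢
    constructor <;> linarith [hk.1, hk.2]
  · intro k hk
    rw [mem_Icc] at hk ⊢
    constructor <;> linarith [hk.1, hk.2]
  · intro k _
    exact neg_neg k
  · intro k _
    exact neg_neg k
  · intro k _
    rfl

open Classical in
/-- one row, both signs -/
theorem rowG {X L q : ℕ} {E : ℝ} {s y y' r r' : ℤ} (hs : s = 1 ∨ s = -1) (hm : 1 ≤ L * q)
    (h : ∀ c k₁ k₂ : ℤ, (∀ k ∈ Icc k₁ k₂, |c + (L * q : ℕ) * k| ≤ X) →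
      |∑ k ∈ Icc k₁ k₂, lam (c + (L * q : ℕ) * k) -
        rt (L * q) * (if IsCoprime c ((L * q : ℕ) : ℤ) then
          ∑ k ∈ Icc k₁ k₂, pos (c + (L * q : ℕ) * k) else 0)| ≤ E)
    (b₁ u v : ℤ) (hb : ∀ k ∈ Icc u v, |G s L q y r (k, b₁)| ≤ X) :
    |∑ k ∈ Icc u v, lam (G s L q y r (k, b₁)) * pos (G s L q y' r' (k, b₁)) -
      rt (L * q) * ∑ k ∈ Icc u v, (if IsCoprime (G s L q y r (k, b₁)) ((L * q : ℕ) : ℤ) then
        pos (G s L q y r (k, b₁)) * pos (G s L q y' r' (k, b₁)) else 0)| ≤ E := by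
  rcases hs with rfl | rfl
  · have e : ∀ y r k : ℤ, G 1 L q y r (k, b₁) = (L * y * b₁ + r) + (L * q : ℕ) * k := by
      intro y r k
      unfold G
      push_cast
      ring
    simp only [e] at hb ⊢
    exact row hm h _ _ _ _ hb
  · have e : ∀ y r k : ℤ, G (-1) L q y r (k, b₁) = (-(L * y * b₁ + r)) + (L * q : ℕ) * (-k) := by
      intro y r k
      unfold G
      push_cast
      ring
    simp only [e] at hb ⊢
    have h1 := sum_neg_Icc u v (fun k => lam ((-(L * y * b₁ + r)) + (L * q : ℕ) * k) *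
      pos ((-(L * y' * b₁ + r')) + (L * q : ℕ) * k))
    have h2 := sum_neg_Icc u v (fun k => if IsCoprime ((-(L * y * b₁ + r)) + (L * q : ℕ) * k)
      ((L * q : ℕ) : ℤ) then pos ((-(L * y * b₁ + r)) + (L * q : ℕ) * k) *
      pos ((-(L * y' * b₁ + r')) + (L * q : ℕ) * k) else 0)
    rw [h1, h2]
    refine row hm h _ _ _ _ fun k hk => ?_
    have h3 := hb (-k) (by
      rw [mem_Icc] at hk ⊢
      constructor <;> linarith [hk.1, hk.2])
    rwa [neg_neg] at h3

/-- the size of the values -/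
theorem G_le {κ H : ℕ} {s : ℤ} {L q : ℕ} {y y' r r' : ℤ} (hH : Hyp κ H s L q y y' r r')
    (hl : 3 ≤ Real.log H) {b : ℤ × ℤ} (h0 : |(b.1 : ℝ)| ≤ H) (h1 : |(b.2 : ℝ)| ≤ H) :
    |(G s L q y r b : ℝ)| ≤ H * Real.log H ^ (2 * κ + 1) := by
  obtain ⟨l, hl'⟩ : ∃ l, l = Real.log H ^ κ := ⟨_, rfl⟩
  have hl1 : 1 ≤ l := by rw [hl']; exact one_le_pow₀ (by linarith)
  have hLl : (L : ℝ) ≤ l := by rw [hl']; exact hH.hL'
  have hql : (q : ℝ) ≤ l := by rw [hl']; exact hH.hq'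
  have hyl : |(y : ℝ)| ≤ l := by rw [hl']; exact hH.hy
  have hrl : |(r : ℝ)| ≤ H * l := by rw [hl']; exact hH.hr
  have hHn : (0 : ℝ) ≤ H := Nat.cast_nonneg _
  have hs : |(s : ℝ)| = 1 := by
    rcases hH.hs with h | h <;> rw [h] <;> norm_num
  have e : (G s L q y r b : ℝ) = s * (L * (q * b.1 + y * b.2) + r) := by
    unfold G
    push_cast
    ring
  rw [e, abs_mul, hs, one_mul]
  have h2 : |(q : ℝ) * b.1 + y * b.2| ≤ l * H + l * H := by
    refine (abs_add_le _ _).trans (add_le_add ?_ ?_)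
    · rw [abs_mul, abs_of_nonneg (Nat.cast_nonneg (α := ℝ) q)]
      exact mul_le_mul hql h0 (abs_nonneg _) (by linarith)
    · rw [abs_mul]
      exact mul_le_mul hyl h1 (abs_nonneg _) (by linarith)
  have h3 : |(L : ℝ) * (q * b.1 + y * b.2) + r| ≤ l * (l * H + l * H) + H * l := by
    refine (abs_add_le _ _).trans (add_le_add ?_ hrl)
    rw [abs_mul, abs_of_nonneg (Nat.cast_nonneg (α := ℝ) L)]
    exact mul_le_mul hLl h2 (abs_nonneg _) (by linarith)
  refine h3.trans ?_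
  have h4 : Real.log H ^ (2 * κ + 1) = l ^ 2 * Real.log H := by
    rw [hl']
    ring
  rw [h4]
  have h5 : H * l ≤ H * l ^ 2 := mul_le_mul_of_nonneg_left (by nlinarith) hHn
  have h6 : H * l ^ 2 * 3 ≤ H * l ^ 2 * Real.log H :=
    mul_le_mul_of_nonneg_left hl (by positivity)
  nlinarith

theorem single_ (h : S_LIN) : S_SINGLE := by
  classical
  intro κ A
  obtain ⟨X₀, hX₀⟩ := h (2 * κ) (A + 2 * κ + 2)
  refine ⟨max X₀ ⌈Real.exp 6⌉₊, fun H hH s L q y y' r r' hyp u v hbox => ?_⟩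
  have hH1 : X₀ ≤ H := (le_max_left _ _).trans hH
  have hH2 : Real.exp 6 ≤ H :=
    (Nat.le_ceil _).trans (by exact_mod_cast (le_max_right _ _).trans hH)
  have hHpos : (0 : ℝ) < H := (Real.exp_pos 6).trans_le hH2
  have hl : 6 ≤ Real.log H := by rwa [Real.le_log_iff_exp_le hHpos]
  have hHn : 1 ≤ H := by exact_mod_cast (by exact_mod_cast hHpos : 0 < H)
  obtain ⟨X, hX⟩ : ∃ X : ℕ, X = ⌈H * Real.log H ^ (2 * κ + 1)⌉₊ := ⟨_, rfl⟩
  have hXle : H * Real.log H ^ (2 * κ + 1) ≤ X := by rw [hX]; exact Nat.le_ceil _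
  have hp1 : 1 ≤ Real.log H ^ (2 * κ + 1) := one_le_pow₀ (by linarith)
  have hHX : (H : ℝ) ≤ X := (le_mul_of_one_le_right hHpos.le hp1).trans hXle
  have hXlt : (X : ℝ) < H * Real.log H ^ (2 * κ + 1) + 1 := by
    rw [hX]
    exact Nat.ceil_lt_add_one (by positivity)
  have hXX : X₀ ≤ X := hH1.trans (by exact_mod_cast hHX)
  have hlX : Real.log H ≤ Real.log X := Real.log_le_log hHpos hHX
  have hm1 : 1 ≤ L * q := Nat.mul_pos hyp.hL hyp.hq
  have hm2 : ((L * q : ℕ) : ℝ) ≤ Real.log X ^ (2 * κ) := by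
    calc ((L * q : ℕ) : ℝ) = L * q := by push_cast; rfl
      _ ≤ Real.log H ^ κ * Real.log H ^ κ :=
        mul_le_mul hyp.hL' hyp.hq' (Nat.cast_nonneg _) (by positivity)
      _ = Real.log H ^ (2 * κ) := by rw [← pow_add]; congr 1; ring
      _ ≤ Real.log X ^ (2 * κ) := pow_le_pow_left₀ (by linarith) hlX _
  have hrow := hX₀ X hXX (L * q) hm1 hm2
  obtain ⟨hb1, -, hb2, hb3, -, hb4⟩ := hbox
  have hR : ∀ {a b z : ℤ}, -(H : ℤ) ≤ a → b ≤ H → z ∈ Icc a b → |(z : ℝ)| ≤ H := by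
    intro a b z ha hb hz
    rw [mem_Icc] at hz
    have h1 : |z| ≤ (H : ℤ) := abs_le.2 ⟨ha.trans hz.1, hz.2.trans hb⟩
    exact_mod_cast h1
  unfold bx
  rw [Finset.sum_product_right, Finset.sum_product_right, Finset.mul_sum, ← Finset.sum_sub_distrib]
  refine (Finset.abs_sum_le_sum_abs _ _).trans ?_
  have hE : ∀ b₁ ∈ Icc u.2 v.2, |∑ k ∈ Icc u.1 v.1, lam (G s L q y r (k, b₁)) *
        pos (G s L q y' r' (k, b₁)) -
      rt (L * q) * ∑ k ∈ Icc u.1 v.1, (if IsCoprime (G s L q y r (k, b₁)) ((L * q : ℕ) : ℤ) then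
        pos (G s L q y r (k, b₁)) * pos (G s L q y' r' (k, b₁)) else 0)| ≤
      X / Real.log X ^ (A + 2 * κ + 2) := by
    intro b₁ hb₁
    refine rowG hyp.hs hm1 hrow b₁ _ _ fun k hk => ?_
    have h1 := G_le hyp (by linarith) (b := (k, b₁)) (hR hb1 hb2 hk) (hR hb3 hb4 hb₁)
    have h2 : |(G s L q y r (k, b₁) : ℝ)| ≤ X := h1.trans hXle
    exact_mod_cast h2
  refine (Finset.sum_le_sum hE).trans ?_
  rw [Finset.sum_const, nsmul_eq_mul]
  have hcard : ((Icc u.2 v.2).card : ℝ) ≤ 3 * H := by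
    rw [Int.card_Icc]
    have h1 : (v.2 + 1 - u.2).toNat ≤ 3 * H := by
      rw [Int.toNat_le]
      push_cast
      have : (1 : ℤ) ≤ H := by exact_mod_cast hHn
      linarith
    exact_mod_cast h1
  have hlpos : 0 < Real.log H := by linarith
  have hfin : X / Real.log X ^ (A + 2 * κ + 2) ≤
      2 * H * Real.log H ^ (2 * κ + 1) / Real.log H ^ (A + 2 * κ + 2) := by
    refine div_le_div₀ (by positivity) ?_ (by positivity) (pow_le_pow_left₀ hlpos.le hlX _)
    have h1 : 1 ≤ H * Real.log H ^ (2 * κ + 1) := by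
      have : (1 : ℝ) ≤ H := by exact_mod_cast hHn
      nlinarith
    linarith
  calc ((Icc u.2 v.2).card : ℝ) * (X / Real.log X ^ (A + 2 * κ + 2))
      ≤ 3 * H * (2 * H * Real.log H ^ (2 * κ + 1) / Real.log H ^ (A + 2 * κ + 2)) := by
        refine mul_le_mul hcard hfin ?_ (by positivity)
        have : 0 ≤ Real.log X := hlpos.le.trans hlX
        positivity
    _ = (H : ℝ) ^ 2 / Real.log H ^ A * (6 / Real.log H) := by
        have e : Real.log H ^ (A + 2 * κ + 2) = Real.log H ^ A * (Real.log H ^ (2 * κ + 1) *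
          Real.log H) := by ring
        rw [e]
        have h0 : Real.log H ^ (2 * κ + 1) ≠ 0 := by positivity
        have h1 : Real.log H ^ A ≠ 0 := by positivity
        field_simp
        ring
    _ ≤ (H : ℝ) ^ 2 / Real.log H ^ A := by
        refine mul_le_of_le_one_right (by positivity) ?_
        rw [div_le_one hlpos]
        exact hl

end Pool.Agent.N73.DC
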